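import Pool.Agent.Run7.h820.SR.StmJ

/-!
# Piece EPS of project JR (helper820, MP_16b0ee_an)
-/

set_option autoImplicit false

namespace Run7.h639.SR

open Run7.h820.SR

theorem t_EPS : S_EPS := by
  intro κ B x N hκ hκ1 hb hB hN hx hx2
  have h1e : 0 < 1 - Real.exp (-κ) := by
    have : Real.exp (-κ) < 1 := Real.exp_lt_one_iff.2 (by linarith)
    linarith
  have h1e' : 1 - Real.exp (-κ) ≤ κ := by
    have := Real.add_one_le_exp (-κ)
    linarith
  have hbb0 : 0 ≤ bb κ := by
    unfold bb
    have : Real.log (1 - Real.exp (-κ)) ≤ 0 :=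
      Real.log_nonpos h1e.le (by have := Real.exp_pos (-κ); linarith)
    linarith
  -- `exp (-B) ≤ κ`
  have hκB : Real.exp (-B) ≤ κ := by
    calc Real.exp (-B) ≤ Real.exp (-bb κ) := Real.exp_le_exp.2 (by linarith)
      _ = 1 - Real.exp (-κ) := by
        unfold bb
        rw [neg_neg, Real.exp_log h1e]
      _ ≤ κ := h1e'
  set y := κ * (N : ℝ) with hy
  have hyB : 128 * B ^ 2 ≤ y := by
    rw [div_le_iff₀ hκ] at hN
    linarith
  have hy0 : 0 ≤ y := by positivity
  have hye : y ≤ Real.exp (y / 2) := by
    have := Real.quadratic_le_exp_of_nonneg (show 0 ≤ y / 2 by linarith)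
    nlinarith [sq_nonneg (y / 2 - 1)]
  have hNy : (N : ℝ) ≤ y * Real.exp B := by
    have h1 : 1 ≤ κ * Real.exp B := by
      have h2 := mul_le_mul_of_nonneg_right hκB (Real.exp_pos B).le
      rwa [← Real.exp_add, neg_add_cancel, Real.exp_zero] at h2
    calc (N : ℝ) = N * 1 := (mul_one _).symm
      _ ≤ N * (κ * Real.exp B) := by gcongr
      _ = y * Real.exp B := by rw [hy]; ring
  have hBe : B ≤ Real.exp B := by
    have := Real.add_one_le_exp B
    linarith
  set X := Real.exp (3 / 2 * κ * N) * x with hX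
  have hX0 : 0 ≤ X := by positivity
  have hX2 : X ^ 2 ≤ Real.exp (-(62 * B)) := by
    have e1 : X ^ 2 = Real.exp (3 * y) * x ^ 2 := by
      rw [hX, mul_pow, ← Real.exp_nat_mul]
      congr 2
      rw [hy]
      push_cast
      ring
    rw [e1]
    calc Real.exp (3 * y) * x ^ 2
        ≤ Real.exp (3 * y) * (N * Real.exp (-(4 * κ * N)) * bb κ) := by gcongr
      _ = N * bb κ * Real.exp (-y) := by
          have : Real.exp (-y) = Real.exp (3 * y) * Real.exp (-(4 * κ * N)) := by
            rw [← Real.exp_add]
            congr 1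
            rw [hy]
            ring
          rw [this]
          ring
      _ ≤ (y * Real.exp B) * Real.exp B * Real.exp (-y) := by
          gcongr
          exact hb.trans hBe
      _ ≤ (Real.exp (y / 2) * Real.exp B) * Real.exp B * Real.exp (-y) := by gcongr
      _ = Real.exp (y / 2 + B + B + -y) := by rw [Real.exp_add, Real.exp_add, Real.exp_add]
      _ ≤ Real.exp (-(62 * B)) := by
          apply Real.exp_le_exp.2
          nlinarith
  have hfin : (400 * B * X) ^ 2 ≤ Real.exp (-B) ^ 2 := by
    have h2 : Real.exp (-B) ^ 2 = Real.exp (-(2 * B)) := by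
      rw [← Real.exp_nat_mul]
      congr 1
      push_cast
      ring
    have h3 : (160000 : ℝ) ≤ Real.exp (58 * B) := by
      calc (160000 : ℝ) ≤ 2 ^ 58 := by norm_num
        _ ≤ Real.exp 1 ^ 58 := by
          gcongr
          have := Real.add_one_le_exp (1 : ℝ)
          linarith
        _ = Real.exp 58 := by
          rw [← Real.exp_nat_mul]
          norm_num
        _ ≤ Real.exp (58 * B) := Real.exp_le_exp.2 (by linarith)
    have h4 : B ^ 2 ≤ Real.exp (2 * B) := by
      have : Real.exp (2 * B) = Real.exp B ^ 2 := by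
        rw [← Real.exp_nat_mul]
        norm_num
      rw [this]
      gcongr
    rw [h2]
    calc (400 * B * X) ^ 2 = 160000 * B ^ 2 * X ^ 2 := by ring
      _ ≤ Real.exp (58 * B) * Real.exp (2 * B) * Real.exp (-(62 * B)) := by gcongr
      _ = Real.exp (-(2 * B)) := by
        rw [← Real.exp_add, ← Real.exp_add]
        congr 1
        ring
  have h5 : 400 * B * X ≤ Real.exp (-B) :=
    (pow_le_pow_iff_left₀ (by positivity) (Real.exp_pos _).le two_ne_zero).1 hfin
  exact h5.trans hκB

end Run7.h639.SR
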