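import Pool.Agent.Run7.h820.SR.StmJ

/-!
# Piece FAB of project JR (helper820, MP_16b0ee_an): the Faber polynomial
-/

set_option autoImplicit false

open Complex Filter Topology Set Metric

namespace Run7.h639.SR

open Run7.h820.SR

theorem t_FAB : S_FAB := by
  intro ρ γ N hρ hN hγ hγ0
  have h0 : (0:ℂ) ∈ ball (0:ℂ) ρ := mem_ball_self hρ
  have hnhds : ball (0:ℂ) ρ ∈ 𝓝 (0:ℂ) := ball_mem_nhds 0 hρ
  have key : ∀ m : ℕ, m ≤ N → ∃ (P : Polynomial ℂ) (g : ℂ → ℂ), P.Monic ∧ P.natDegree = N ∧
      DifferentiableOn ℂ g (ball 0 ρ) ∧ ∀ w ∈ ball (0:ℂ) ρ, w ≠ 0 →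
        w ^ N * P.eval (Complex.exp (γ w) / w) = 1 + w ^ (m + 1) * g w := by
    intro m
    induction m with
    | zero =>
      intro _
      have hd : DifferentiableOn ℂ (fun w => Complex.exp (γ w) ^ N) (ball 0 ρ) := (hγ.cexp).pow N
      refine ⟨Polynomial.X ^ N, dslope (fun w => Complex.exp (γ w) ^ N) 0, Polynomial.monic_X_pow N,
        Polynomial.natDegree_X_pow N, (Complex.differentiableOn_dslope hnhds).2 hd, ?_⟩
      intro w hw hw0
      have h1 := sub_smul_dslope (fun w => Complex.exp (γ w) ^ N) 0 w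
      rw [sub_zero, smul_eq_mul, hγ0, Complex.exp_zero, one_pow] at h1
      rw [Polynomial.eval_pow, Polynomial.eval_X, div_pow, mul_div_cancel₀ _ (pow_ne_zero N hw0),
        zero_add, pow_one, h1]
      ring
    | succ m ih =>
      intro hm
      obtain ⟨P, g, hP, hdeg, hg, heq⟩ := ih (by omega)
      have hlt : (Polynomial.C (g 0) * Polynomial.X ^ (N - (m + 1))).natDegree < P.natDegree := by
        rw [hdeg]
        have := Polynomial.natDegree_C_mul_X_pow_le (g 0) (N - (m + 1))
        omega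
      let k : ℂ → ℂ := fun w => g w - g 0 * Complex.exp (γ w) ^ (N - (m + 1))
      have hk : DifferentiableOn ℂ k (ball 0 ρ) :=
        hg.sub ((differentiableOn_const _).mul ((hγ.cexp).pow _))
      refine ⟨P - Polynomial.C (g 0) * Polynomial.X ^ (N - (m + 1)), dslope k 0,
        hP.sub_of_left (Polynomial.degree_lt_degree hlt),
        (Polynomial.natDegree_sub_eq_left_of_natDegree_lt hlt).trans hdeg,
        (Complex.differentiableOn_dslope hnhds).2 hk, ?_⟩
      intro w hw hw0
      have h1 := sub_smul_dslope k 0 w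
      have hk0 : k 0 = 0 := by
        change g 0 - g 0 * Complex.exp (γ 0) ^ (N - (m + 1)) = 0
        rw [hγ0, Complex.exp_zero, one_pow, mul_one, sub_self]
      rw [sub_zero, smul_eq_mul, hk0, sub_zero] at h1
      have h2 : w ^ N * (Complex.exp (γ w) / w) ^ (N - (m + 1)) =
          w ^ (m + 1) * Complex.exp (γ w) ^ (N - (m + 1)) := by
        have h3 : w ^ N = w ^ (m + 1) * w ^ (N - (m + 1)) := by
          rw [← pow_add]
          congr 1
          omega
        rw [h3, div_pow, mul_assoc, mul_div_cancel₀ _ (pow_ne_zero _ hw0)]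
      rw [Polynomial.eval_sub, mul_sub, heq w hw hw0, Polynomial.eval_mul, Polynomial.eval_C,
        Polynomial.eval_pow, Polynomial.eval_X, mul_left_comm, h2, pow_succ w (m + 1), mul_assoc, h1]
      change _ = 1 + w ^ (m + 1) * (g w - g 0 * Complex.exp (γ w) ^ (N - (m + 1)))
      ring
  obtain ⟨P, g, hP, hdeg, hg, heq⟩ := key N le_rfl
  refine ⟨P, fun w => w * g w, hP, hdeg, differentiableOn_id.mul hg, by simp, ?_⟩
  intro w hw hw0
  have h1 := heq w hw hw0
  have h2 : w ^ N ≠ 0 := pow_ne_zero N hw0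
  apply mul_left_cancel₀ h2
  rw [h1, mul_add, inv_pow, mul_inv_cancel₀ h2, pow_succ]
  ring

end Run7.h639.SR
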